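import Pool.Agent.H256R2.SC.G1
import Pool.Agent.H378R2.PS.Defs

set_option autoImplicit false
set_option linter.unusedVariables false

/-! # Numerical facts (project PT, helper378) -/

namespace Pool.Agent.H378R2.PT

open Finset Filter
open Pool.Agent.H256R2.SC.LG (ev_log half_log log_sq_le log10_lt)
open Pool.Agent.H256R2.SC (ff)
open Pool.Agent.H378R2.PS (V1)

theorem primorial_le_rpow {X : ℝ} (hX : 1 ≤ X) :
    (primorial ⌊Real.log X / 10⌋₊ : ℝ) ≤ X ^ (3 / 20 : ℝ) := by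
  have h0 : 0 ≤ Real.log X := Real.log_nonneg hX
  have h1 : (primorial ⌊Real.log X / 10⌋₊ : ℝ) ≤ (4 : ℝ) ^ ⌊Real.log X / 10⌋₊ := by
    exact_mod_cast primorial_le_four_pow _
  refine h1.trans ?_
  rw [← Real.rpow_natCast]
  have h2 : (4 : ℝ) ^ ((⌊Real.log X / 10⌋₊ : ℕ) : ℝ) ≤ (4 : ℝ) ^ (Real.log X / 10) :=
    Real.rpow_le_rpow_of_exponent_le (by norm_num) (Nat.floor_le (by positivity))
  refine h2.trans ?_
  rw [Real.rpow_def_of_pos (by norm_num : (0 : ℝ) < 4),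
    Real.rpow_def_of_pos (by linarith : (0 : ℝ) < X)]
  apply Real.exp_le_exp.2
  have h3 : Real.log 4 ≤ 3 / 2 := by
    have : Real.log 4 = 2 * Real.log 2 := by
      rw [show (4 : ℝ) = 2 ^ (2 : ℕ) by norm_num, Real.log_pow]; norm_num
    have := Real.log_two_lt_d9
    linarith
  nlinarith

/-- powers -/
theorem ev_pow (A D : ℕ) : ∃ X₀ : ℝ, ∀ X : ℝ, X₀ ≤ X →
    4 * (Real.log (Real.log X)) ^ A + 1 ≤ Real.log X ∧
    4 * (D : ℝ) * X ^ (3 / 20 : ℝ) ≤ X ^ (1 / 2 : ℝ) ∧ 2 ≤ X ^ (1 / 10 : ℝ) ∧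
    X ^ (1 / 10 : ℝ) ≤ X / 4 ∧ (Real.log X) ^ 2 ≤ X / 4 := by
  have h1 : ∀ᶠ t : ℝ in atTop, 4 * (Real.log t) ^ A + 1 ≤ t := by
    have h := (Real.isLittleO_pow_log_id_atTop (n := A)).def (show (0 : ℝ) < 1 / 8 by norm_num)
    filter_upwards [h, eventually_ge_atTop (2 : ℝ)] with t ht h2
    have h3 : 0 ≤ Real.log t := Real.log_nonneg (by linarith)
    rw [Real.norm_eq_abs, Real.norm_eq_abs, abs_of_nonneg (pow_nonneg h3 _)] at ht
    simp only [id] at ht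
    rw [abs_of_nonneg (by linarith)] at ht
    linarith
  have h1' := Real.tendsto_log_atTop.eventually h1
  have h2 : ∀ᶠ X : ℝ in atTop, 4 * (D : ℝ) ≤ X ^ (7 / 20 : ℝ) :=
    (tendsto_rpow_atTop (by norm_num : (0:ℝ) < 7 / 20)).eventually_ge_atTop _
  have h3 : ∀ᶠ X : ℝ in atTop, 2 ≤ X ^ (1 / 10 : ℝ) :=
    (tendsto_rpow_atTop (by norm_num : (0:ℝ) < 1 / 10)).eventually_ge_atTop _
  have h4 : ∀ᶠ X : ℝ in atTop, 4 ≤ X ^ (9 / 10 : ℝ) :=
    (tendsto_rpow_atTop (by norm_num : (0:ℝ) < 9 / 10)).eventually_ge_atTop _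
  have h5 : ∀ᶠ X : ℝ in atTop, (Real.log X) ^ 2 ≤ X / 4 := by
    have h := (Real.isLittleO_pow_log_id_atTop (n := 2)).def (show (0 : ℝ) < 1 / 4 by norm_num)
    filter_upwards [h, eventually_ge_atTop (2 : ℝ)] with t ht h2
    have h3 : 0 ≤ Real.log t := Real.log_nonneg (by linarith)
    rw [Real.norm_eq_abs, Real.norm_eq_abs, abs_of_nonneg (pow_nonneg h3 _)] at ht
    simp only [id] at ht
    rw [abs_of_nonneg (by linarith)] at ht
    linarith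
  obtain ⟨X₀, h⟩ := eventually_atTop.1
    (((((h1'.and h2).and h3).and h4).and h5).and (eventually_ge_atTop (1:ℝ)))
  refine ⟨X₀, fun X hX => ?_⟩
  obtain ⟨⟨⟨⟨⟨g1, g2⟩, g3⟩, g4⟩, g5⟩, g6⟩ := h X hX
  have hX0 : 0 < X := by linarith
  refine ⟨g1, ?_, g3, ?_, g5⟩
  · have e : X ^ (1 / 2 : ℝ) = X ^ (7 / 20 : ℝ) * X ^ (3 / 20 : ℝ) := by
      rw [← Real.rpow_add hX0]; norm_num
    rw [e]
    exact mul_le_mul_of_nonneg_right g2 (Real.rpow_nonneg hX0.le _)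
  · have e : X = X ^ (9 / 10 : ℝ) * X ^ (1 / 10 : ℝ) := by
      conv_lhs => rw [← Real.rpow_one X]
      rw [← Real.rpow_add hX0]; norm_num
    have h6 : 4 * X ^ (1 / 10 : ℝ) ≤ X := by
      conv_rhs => rw [e]
      exact mul_le_mul_of_nonneg_right g4 (Real.rpow_nonneg hX0.le _)
    linarith

/-- all inequalities needed -/
theorem anaT (A D : ℕ) {c K y₀ : ℝ} (hc : 0 < c) (hK : 0 < K) : ∃ c' : ℝ, 0 < c' ∧ ∃ X₀ : ℝ,
    ∀ X : ℝ, X₀ ≤ X → ∀ y : ℝ, y = Real.log X / 10 →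
    ∀ W : ℕ, W = ⌊Real.log X * (Real.log (Real.log X)) ^ A⌋₊ →
    1 ≤ X ∧ y₀ ≤ y ∧ 5 ≤ y ∧ y ≤ ((2 * W : ℕ) : ℝ) ∧
      ((2 * W : ℕ) : ℝ) ≤ y * (Real.log y) ^ (A + 1) ∧
      (∀ t : ℝ, t ≤ c' * ff X → t * (K * (Real.log (Real.log y)) ^ 2 /
        ((Real.log y) ^ 2 * Real.log (Real.log (Real.log y)))) ≤ c * Real.log X) ∧
      ((2 * W : ℕ) : ℝ) < (Real.log X) ^ 2 ∧ y ≤ (Real.log X) ^ 2 ∧
      4 * (D : ℝ) * (primorial ⌊y⌋₊ : ℝ) ≤ X ^ (1 / 2 : ℝ) ∧ 2 ≤ X ^ (1 / 10 : ℝ) ∧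
      X ^ (1 / 10 : ℝ) ≤ X / 4 ∧ y ≤ X / 4 ∧ (W : ℝ) ≤ X / 4 ∧ 2 ≤ V1 y ∧
      (D : ℝ) ≤ V1 y ∧ 1 ≤ Real.log (Real.log y) ∧ 1 ≤ Real.log (Real.log (Real.log y)) ∧
      V1 y ≤ Real.log y := by
  refine ⟨c / (8 * K), by positivity, ?_⟩
  obtain ⟨c', hc'⟩ : ∃ c' : ℝ, c' = c / (8 * K) := ⟨_, rfl⟩
  rw [← hc']
  have hc'0 : 0 < c' := by rw [hc']; positivity
  obtain ⟨X₄, hX₄⟩ := ev_pow A D
  obtain ⟨M, hM⟩ : ∃ M : ℝ, M = 1000 + 40 * 2 ^ (A + 2) + 10 * |y₀| + 640 * (D + 2) := ⟨_, rfl⟩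
  obtain ⟨X₀, hX₀⟩ := ev_log M
  refine ⟨max X₀ X₄, fun X hX y hy W hW => ?_⟩
  obtain ⟨hX1, m1, m2, m3, m4⟩ := hX₀ X ((le_max_left _ _).trans hX)
  obtain ⟨b1, b2, b3, b4, b5⟩ := hX₄ X ((le_max_right _ _).trans hX)
  have q1 : (0:ℝ) < 40 * 2 ^ (A + 2) := by positivity
  have q2 : 0 ≤ 10 * |y₀| := by positivity
  have q3 : (0:ℝ) ≤ 640 * (D + 2) := by positivity
  have M1 : 1000 ≤ M := by rw [hM]; linarith
  have M2 : 40 * 2 ^ (A + 2) ≤ M := by rw [hM]; linarith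
  have M3 : 10 * |y₀| ≤ M := by rw [hM]; linarith
  have M4 : 640 * ((D : ℝ) + 2) ≤ M := by rw [hM]; linarith
  obtain ⟨l1, hl1⟩ : ∃ l1, l1 = Real.log X := ⟨_, rfl⟩
  obtain ⟨l2, hl2⟩ : ∃ l2, l2 = Real.log l1 := ⟨_, rfl⟩
  obtain ⟨l3, hl3⟩ : ∃ l3, l3 = Real.log l2 := ⟨_, rfl⟩
  obtain ⟨l4, hl4⟩ : ∃ l4, l4 = Real.log l3 := ⟨_, rfl⟩
  have hff : ff X = l1 * l2 ^ 2 * l4 / l3 ^ 2 := by
    unfold ff
    rw [hl4, hl3, hl2, hl1]
  rw [← hl1, ← hl2, ← hl3, ← hl4] at m4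
  rw [← hl1, ← hl2, ← hl3] at m3
  rw [← hl1, ← hl2] at m2
  rw [← hl1] at m1
  rw [← hl1, ← hl2] at b1 hW
  rw [← hl1] at b5 hy
  rw [← hl1]
  have p1 : 0 < l1 := by linarith
  have p2 : 0 < l2 := by linarith
  have p3 : 0 < l3 := by linarith
  have p4 : 0 < l4 := by linarith
  have hlog10 := log10_lt
  -- logs of y
  have y1 : l2 / 2 ≤ Real.log y := by
    rw [hl2]
    exact half_log (by rw [hy]) (by rw [← hl2]; linarith) p1
  have y2 : l3 / 2 ≤ Real.log (Real.log y) := by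
    rw [hl3]
    exact half_log (by linarith) (by rw [← hl3]; linarith) p2
  have y3 : l4 / 2 ≤ Real.log (Real.log (Real.log y)) := by
    rw [hl4]
    exact half_log (by linarith) (by rw [← hl4]; linarith) p3
  have hypos : 0 < y := by rw [hy]; positivity
  have hlogy : 0 < Real.log y := by linarith
  have hloglogy : 0 < Real.log (Real.log y) := by linarith
  have hylog : Real.log y ≤ l2 := by
    rw [hl2]
    apply Real.log_le_log hypos
    rw [hy]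
    linarith
  have y2' : Real.log (Real.log y) ≤ l3 := by
    rw [hl3]
    exact Real.log_le_log hlogy hylog
  have h3pos : 0 < Real.log (Real.log (Real.log y)) := by linarith
  have hV : 2 + (D : ℝ) ≤ V1 y := by
    unfold V1
    have h1 : l2 / 2 * (l4 / 2) / (20 * l3) ≤
        Real.log y * Real.log (Real.log (Real.log y)) / (20 * Real.log (Real.log y)) := by
      gcongr
    refine le_trans ?_ h1
    rw [le_div_iff₀ (by positivity)]
    have q1 : l3 ^ 2 ≤ 4 * l2 := by rw [hl3]; exact log_sq_le (by linarith)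
    have h2 : 320 * ((D : ℝ) + 2) * l3 ≤ l2 * l4 := by
      have e1 : l3 * l3 ≤ 4 * l2 := by nlinarith
      have e2 : l3 * l3 * l4 ≤ 4 * l2 * l4 := by gcongr
      have e3 : 640 * ((D : ℝ) + 2) ≤ l3 := by linarith
      have e5 : 4 * (320 * ((D : ℝ) + 2)) ≤ l3 * l4 := by
        have : (1000:ℝ) ≤ l4 := by linarith
        have e6 : 0 ≤ 640 * ((D : ℝ) + 2) := by positivity
        nlinarith
      have e4 : 4 * (320 * ((D : ℝ) + 2)) * l3 ≤ l3 * l4 * l3 := by gcongr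
      nlinarith
    have h4 : 0 ≤ ((D : ℝ) + 2) * l3 := by positivity
    nlinarith
  have hWr : (W : ℝ) ≤ l1 * l2 ^ A := by
    rw [hW]
    exact Nat.floor_le (by positivity)
  have hl2A : 1 ≤ l2 ^ A := one_le_pow₀ (by linarith)
  have hWl : l1 * l2 ^ A - 1 ≤ W := by
    rw [hW]
    have := Nat.lt_floor_add_one (l1 * l2 ^ A)
    linarith
  have hl1W : l1 - 1 ≤ W := by nlinarith
  have hW4 : 4 * (W : ℝ) ≤ l1 ^ 2 - l1 := by
    have : l1 * (4 * l2 ^ A + 1) ≤ l1 * l1 := mul_le_mul_of_nonneg_left b1 p1.le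
    nlinarith
  refine ⟨hX1, ?_, ?_, ?_, ?_, ?_, ?_, ?_, ?_, b3, b4, ?_, ?_, ?_, ?_, ?_, ?_, ?_⟩
  · rw [hy]
    have := le_abs_self y₀
    linarith
  · rw [hy]; linarith
  · push_cast
    rw [hy]; linarith
  · push_cast
    have h1 : (l2 / 2) ^ (A + 1) ≤ (Real.log y) ^ (A + 1) := by gcongr
    have h2 : 2 * (l1 * l2 ^ A) ≤ l1 / 10 * (l2 / 2) ^ (A + 1) := by
      have e1 : (l2 / 2) ^ (A + 1) = l2 ^ A * (l2 / 2 ^ (A + 1)) := by
        rw [div_pow, pow_succ]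
        ring
      rw [e1]
      have e2 : (20:ℝ) ≤ l2 / 2 ^ (A + 1) := by
        rw [le_div_iff₀ (by positivity)]
        have e3 : (2:ℝ) ^ (A + 2) = 2 * 2 ^ (A + 1) := by ring
        have e4 : (0:ℝ) < 2 ^ (A + 1) := by positivity
        linarith
      have e3 : 0 ≤ l1 * l2 ^ A := by positivity
      calc 2 * (l1 * l2 ^ A) = l1 * l2 ^ A * 20 / 10 := by ring
        _ ≤ l1 * l2 ^ A * (l2 / 2 ^ (A + 1)) / 10 := by gcongr
        _ = _ := by ring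
    calc 2 * (W : ℝ) ≤ 2 * (l1 * l2 ^ A) := by linarith
      _ ≤ l1 / 10 * (l2 / 2) ^ (A + 1) := h2
      _ ≤ l1 / 10 * (Real.log y) ^ (A + 1) := by gcongr
      _ = y * (Real.log y) ^ (A + 1) := by rw [hy]
  · intro t ht
    have h1 : K * (Real.log (Real.log y)) ^ 2 /
        ((Real.log y) ^ 2 * Real.log (Real.log (Real.log y))) ≤
        K * l3 ^ 2 / ((l2 / 2) ^ 2 * (l4 / 2)) := by
      gcongr
    have h0 : 0 ≤ K * (Real.log (Real.log y)) ^ 2 /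
        ((Real.log y) ^ 2 * Real.log (Real.log (Real.log y))) := by positivity
    calc t * (K * (Real.log (Real.log y)) ^ 2 /
        ((Real.log y) ^ 2 * Real.log (Real.log (Real.log y))))
        ≤ (c' * ff X) * (K * (Real.log (Real.log y)) ^ 2 /
        ((Real.log y) ^ 2 * Real.log (Real.log (Real.log y)))) :=
          mul_le_mul_of_nonneg_right ht h0
      _ ≤ (c' * ff X) * (K * l3 ^ 2 / ((l2 / 2) ^ 2 * (l4 / 2))) := by
          apply mul_le_mul_of_nonneg_left h1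
          rw [hff]
          positivity
      _ = c * l1 := by
          rw [hff, hc']
          field_simp
          norm_num
  · push_cast
    nlinarith
  · rw [hy]; nlinarith
  · have h1 := primorial_le_rpow hX1
    rw [← hl1, ← hy] at h1
    calc 4 * (D : ℝ) * (primorial ⌊y⌋₊ : ℝ) ≤ 4 * (D : ℝ) * X ^ (3 / 20 : ℝ) := by gcongr
      _ ≤ X ^ (1 / 2 : ℝ) := b2
  · have h1 : y ≤ l1 ^ 2 := by rw [hy]; nlinarith
    linarith
  · nlinarith
  · have : (0:ℝ) ≤ D := Nat.cast_nonneg _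
    linarith
  · linarith
  · linarith
  · linarith
  · unfold V1
    rw [div_le_iff₀ (by positivity)]
    apply mul_le_mul_of_nonneg_left _ hlogy.le
    have := Real.log_le_sub_one_of_pos hloglogy
    linarith

end Pool.Agent.H378R2.PT
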