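import Pool.Agent.H378R2.PT.Main
import Pool.Agent.H674R2.PT.T1

set_option autoImplicit false
set_option linter.unusedVariables false

/-! # The least element of a thin set in a representation `N = p + q` (project PT, helper378) -/

namespace Pool.Agent.H378R2.PT

open Finset Filter
open Pool.Agent.H256R2.SC (ff)
open Pool.Agent.H256R2.SC.LG (ev_log log_sq_le)

open scoped Classical

theorem least_of_count (j D : ℕ) (hD : 0 < D) (T : ℕ → Prop) {C : ℝ} (hC : 0 < C) {Q₀ : ℕ}
    (hcount : ∀ Q : ℕ, Q₀ ≤ Q → (((range (Q + 1)).filter T).card : ℝ) ≤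
      C * Q / (Real.log Q) ^ j) :
    ∃ c : ℝ, 0 < c ∧ ∃ X₀ : ℝ, ∀ X : ℝ, X₀ ≤ X → ∀ M : ℝ, X ≤ M → ∀ r : ℕ,
    ∃ N : ℕ, M < N ∧ (N : ℝ) ≤ M + X ∧ N ≡ r [MOD D] ∧
      ∀ q p : ℕ, T q → p.Prime → (p + q = N ∨ p = N + q) →
        c * (Real.log X * (Real.log (Real.log X)) ^ (j + 2) *
          Real.log (Real.log (Real.log (Real.log X))) /
            (Real.log (Real.log (Real.log X))) ^ 2) < q := by
  obtain ⟨c, hc, X₁, hm⟩ := main_of (j + 3) (rough_count (j + 3 + 1)) D hD
  obtain ⟨c', hc'⟩ : ∃ c' : ℝ, c' = min 1 (c / (2 * C)) := ⟨_, rfl⟩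
  have hc'0 : 0 < c' := by rw [hc']; exact lt_min one_pos (by positivity)
  have hc'1 : c' ≤ 1 := by rw [hc']; exact min_le_left _ _
  have hc'2 : 2 * C * c' ≤ c := by
    have : c' ≤ c / (2 * C) := by rw [hc']; exact min_le_right _ _
    rw [le_div_iff₀ (by positivity)] at this
    linarith
  obtain ⟨M₀, hM₀⟩ : ∃ M₀ : ℝ, M₀ = 1000 + 8 / c' + Q₀ := ⟨_, rfl⟩
  obtain ⟨X₂, hX₂⟩ := ev_log M₀
  refine ⟨c', hc'0, max X₁ X₂, fun X hX M hM r => ?_⟩
  obtain ⟨hX1, m1, m2, m3, m4⟩ := hX₂ X ((le_max_right _ _).trans hX)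
  have q1 : 0 < 8 / c' := by positivity
  have q2 : (0:ℝ) ≤ Q₀ := Nat.cast_nonneg _
  have hZmain := hm X ((le_max_left _ _).trans hX) M hM r
  obtain ⟨l1, hl1⟩ : ∃ l1, l1 = Real.log X := ⟨_, rfl⟩
  obtain ⟨l2, hl2⟩ : ∃ l2, l2 = Real.log l1 := ⟨_, rfl⟩
  obtain ⟨l3, hl3⟩ : ∃ l3, l3 = Real.log l2 := ⟨_, rfl⟩
  obtain ⟨l4, hl4⟩ : ∃ l4, l4 = Real.log l3 := ⟨_, rfl⟩
  have hff : ff X = l1 * l2 ^ 2 * l4 / l3 ^ 2 := by
    unfold ff
    rw [hl4, hl3, hl2, hl1]
  rw [← hl1, ← hl2, ← hl3, ← hl4] at m4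
  rw [← hl1, ← hl2, ← hl3] at m3
  rw [← hl1, ← hl2] at m2 hZmain
  rw [← hl1] at m1
  rw [← hl1, ← hl2, ← hl3, ← hl4]
  obtain ⟨G, hG⟩ : ∃ G : ℝ, G = l1 * l2 ^ (j + 2) * l4 / l3 ^ 2 := ⟨_, rfl⟩
  rw [← hG]
  have p1 : 0 < l1 := by linarith
  have p2 : 0 < l2 := by linarith
  have p3 : 0 < l3 := by linarith
  have p4 : 0 < l4 := by linarith
  have hGff : G = l2 ^ j * ff X := by rw [hG, hff, pow_add]; ring
  have hff0 : 0 < ff X := by rw [hff]; positivity
  have hG0 : 0 < G := by rw [hG]; positivity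
  obtain ⟨Q, hQ⟩ : ∃ Q : ℕ, Q = ⌊c' * G⌋₊ := ⟨_, rfl⟩
  have hQle : (Q : ℝ) ≤ c' * G := by rw [hQ]; exact Nat.floor_le (by positivity)
  have hff1 : 2 * l1 ≤ c' * ff X := by
    have h1 : l3 ^ 2 ≤ 4 * l2 := by rw [hl3]; exact log_sq_le (by linarith)
    rw [hff, ← mul_div_assoc, le_div_iff₀ (by positivity)]
    have h2 : 8 ≤ c' * l4 := by
      have : 8 / c' ≤ l4 := by linarith
      rw [div_le_iff₀ hc'0] at this
      linarith
    have h3 : 2 * l3 ^ 2 ≤ c' * (l2 ^ 2 * l4) := by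
      have h4 : 8 * l2 ≤ c' * (l2 ^ 2 * l4) := by
        have h5 : 8 * l2 ^ 2 ≤ c' * l4 * l2 ^ 2 := mul_le_mul_of_nonneg_right h2 (by positivity)
        nlinarith
      linarith
    nlinarith
  have hl2j : 1 ≤ l2 ^ j := one_le_pow₀ (by linarith)
  have hQl : l1 ≤ Q := by
    have h1 : c' * G = l2 ^ j * (c' * ff X) := by rw [hGff]; ring
    have h2 : 2 * l1 ≤ c' * G := by
      rw [h1]
      have : 0 ≤ c' * ff X := by positivity
      nlinarith
    have h3 : c' * G < Q + 1 := by rw [hQ]; exact Nat.lt_floor_add_one _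
    linarith
  have hQ0 : Q₀ ≤ Q := by
    have : (Q₀ : ℝ) ≤ Q := by linarith
    exact_mod_cast this
  have hlogQ : l2 ≤ Real.log Q := by rw [hl2]; exact Real.log_le_log p1 hQl
  have hcnt := hcount Q hQ0
  have hcnt' : (((range (Q + 1)).filter T).card : ℝ) ≤ C * c' * ff X := by
    calc _ ≤ C * Q / (Real.log Q) ^ j := hcnt
      _ ≤ C * (c' * G) / l2 ^ j := by gcongr
      _ = C * c' * ff X := by rw [hGff]; field_simp
  obtain ⟨Z, hZ⟩ : ∃ Z : Finset ℤ, Z = ((range (Q + 1)).filter T).image (fun q : ℕ => -(q : ℤ)) ∪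
      ((range (Q + 1)).filter T).image (fun q : ℕ => (q : ℤ)) := ⟨_, rfl⟩
  have hZc : (Z.card : ℝ) ≤ c * ff X := by
    have h1 : Z.card ≤ ((range (Q + 1)).filter T).card + ((range (Q + 1)).filter T).card := by
      rw [hZ]
      exact (Finset.card_union_le _ _).trans
        (Nat.add_le_add Finset.card_image_le Finset.card_image_le)
    have h2 : (Z.card : ℝ) ≤ (((range (Q + 1)).filter T).card : ℝ) +
      (((range (Q + 1)).filter T).card : ℝ) := by exact_mod_cast h1
    have h3 : 2 * C * c' * ff X ≤ c * ff X := mul_le_mul_of_nonneg_right hc'2 hff0.le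
    linarith
  have hQb : (Q : ℝ) ≤ l1 * l2 ^ (j + 3) := by
    have h1 : G ≤ l1 * l2 ^ (j + 3) := by
      rw [hG, div_le_iff₀ (by positivity)]
      have h2 : l4 ≤ l2 := by
        have e1 : l4 ≤ l3 := by
          rw [hl4]
          have := Real.log_le_sub_one_of_pos p3
          linarith
        have e2 : l3 ≤ l2 := by
          rw [hl3]
          have := Real.log_le_sub_one_of_pos p2
          linarith
        linarith
      have h3 : 1 ≤ l3 ^ 2 := one_le_pow₀ (by linarith)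
      have h4 : 0 ≤ l1 * l2 ^ (j + 2) := by positivity
      calc l1 * l2 ^ (j + 2) * l4 ≤ l1 * l2 ^ (j + 2) * l2 := mul_le_mul_of_nonneg_left h2 h4
        _ = l1 * l2 ^ (j + 3) * 1 := by ring
        _ ≤ l1 * l2 ^ (j + 3) * l3 ^ 2 := by gcongr
    have h2 : c' * G ≤ 1 * G := mul_le_mul_of_nonneg_right hc'1 hG0.le
    linarith
  have hZb : ∀ z ∈ Z, |(z : ℝ)| ≤ l1 * l2 ^ (j + 3) := by
    intro z hz
    rw [hZ, Finset.mem_union, Finset.mem_image, Finset.mem_image] at hz
    rcases hz with ⟨q, hq, rfl⟩ | ⟨q, hq, rfl⟩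
    · rw [Finset.mem_filter, Finset.mem_range] at hq
      have h1 : (q : ℝ) ≤ Q := by exact_mod_cast (by omega : q ≤ Q)
      push_cast
      rw [abs_neg, abs_of_nonneg (Nat.cast_nonneg _)]
      linarith
    · rw [Finset.mem_filter, Finset.mem_range] at hq
      have h1 : (q : ℝ) ≤ Q := by exact_mod_cast (by omega : q ≤ Q)
      push_cast
      rw [abs_of_nonneg (Nat.cast_nonneg _)]
      linarith
  obtain ⟨N, hN1, hN2, hN3, hN4⟩ := hZmain Z hZb hZc
  refine ⟨N, hN1, hN2, hN3, fun q p hq hp hpq => ?_⟩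
  by_contra hcon
  push Not at hcon
  have hqQ : q ≤ Q := by rw [hQ]; exact Nat.le_floor hcon
  have hqm : q ∈ (range (Q + 1)).filter T := by
    rw [Finset.mem_filter, Finset.mem_range]
    exact ⟨by omega, hq⟩
  rcases hpq with h1 | h1
  · apply hN4 (-(q : ℤ)) (by
      rw [hZ, Finset.mem_union]; left; exact Finset.mem_image_of_mem (fun q : ℕ => -(q : ℤ)) hqm)
    have e : (N : ℤ) + -(q : ℤ) = (p : ℤ) := by rw [← h1]; push_cast; ring
    rw [e]
    exact Nat.prime_iff_prime_int.mp hp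
  · apply hN4 (q : ℤ) (by
      rw [hZ, Finset.mem_union]; right; exact Finset.mem_image_of_mem (fun q : ℕ => (q : ℤ)) hqm)
    have e : (N : ℤ) + (q : ℤ) = (p : ℤ) := by rw [h1]; push_cast; ring
    rw [e]
    exact Nat.prime_iff_prime_int.mp hp

/-- `q, π(q), …, π^k(q)` are prime -/
def IT (k q : ℕ) : Prop := ∀ i ≤ k, (Nat.primeCounting^[i] q).Prime

/-- iterated prime indices: the count -/
theorem iter_count (k : ℕ) : ∃ C : ℝ, 0 < C ∧ ∃ Q₀ : ℕ, ∀ Q : ℕ, Q₀ ≤ Q →
    (((range (Q + 1)).filter (IT k)).card : ℝ) ≤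
      C * Q / (Real.log Q) ^ (k + 1) := by
  induction k with
  | zero =>
    refine ⟨4, by norm_num, 2, fun Q hQ => ?_⟩
    have h1 := T1_pi (x := (Q : ℝ)) (by exact_mod_cast hQ)
    rw [Nat.floor_natCast] at h1
    have h2 : ((range (Q + 1)).filter (IT 0)).card ≤ Nat.primeCounting Q := by
      rw [Nat.primeCounting, Nat.primeCounting', Nat.count_eq_card_filter_range]
      apply Finset.card_le_card
      intro q hq
      rw [Finset.mem_filter] at hq ⊢
      exact ⟨hq.1, by simpa using hq.2 0 le_rfl⟩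
    calc _ ≤ (Nat.primeCounting Q : ℝ) := by exact_mod_cast h2
      _ ≤ 4 * (Q / Real.log Q) := h1
      _ = _ := by ring
  | succ k ih =>
    obtain ⟨C, hC, Q₀, h⟩ := ih
    refine ⟨C * 2 ^ (k + 3), by positivity, (Q₀ + 4) ^ 2, fun Q hQ => ?_⟩
    have hQr : ((Q₀ : ℝ) + 4) ^ 2 ≤ Q := by exact_mod_cast hQ
    have hQ00 : (0 : ℝ) ≤ Q₀ := Nat.cast_nonneg _
    have hQ16 : (16 : ℝ) ≤ Q := by nlinarith
    have hQ0 : (0 : ℝ) < Q := by linarith
    have hlQ : 0 < Real.log Q := Real.log_pos (by linarith)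
    obtain ⟨U, hU⟩ : ∃ U : ℕ, U = ⌊4 * ((Q : ℝ) / Real.log Q)⌋₊ := ⟨_, rfl⟩
    have hU1 : (U : ℝ) ≤ 4 * ((Q : ℝ) / Real.log Q) := by
      rw [hU]; exact Nat.floor_le (by positivity)
    have hsq : Real.sqrt Q * Real.sqrt Q = Q := Real.mul_self_sqrt hQ0.le
    have hs0 : 0 < Real.sqrt Q := Real.sqrt_pos.2 hQ0
    have hsQ : (Q₀ : ℝ) + 4 ≤ Real.sqrt Q := Real.le_sqrt_of_sq_le hQr
    have hU2 : Real.sqrt Q ≤ U := by
      have h1 : Real.sqrt Q ≤ (Q : ℝ) / Real.log Q := by
        rw [le_div_iff₀ hlQ]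
        have := mul_le_mul_of_nonneg_left (T1_log_le_sqrt hQ0) hs0.le
        linarith
      have h2 : 4 * ((Q : ℝ) / Real.log Q) < U + 1 := by rw [hU]; exact Nat.lt_floor_add_one _
      linarith
    have hQU : Q₀ ≤ U := by
      have : (Q₀ : ℝ) ≤ U := by linarith
      exact_mod_cast this
    have hlU : Real.log Q / 2 ≤ Real.log U := by
      have h1 := Real.log_le_log hs0 hU2
      rwa [Real.log_sqrt hQ0.le] at h1
    have hpi : Nat.primeCounting Q ≤ U := by
      have h1 := T1_pi (x := (Q : ℝ)) (by linarith)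
      rw [Nat.floor_natCast] at h1
      rw [hU]
      exact Nat.le_floor h1
    have h1 : ((range (Q + 1)).filter (IT (k + 1))).card ≤
        ((range (U + 1)).filter (IT k)).card := by
      apply Finset.card_le_card_of_injOn Nat.primeCounting
      · intro q hq
        rw [Finset.mem_coe, Finset.mem_filter, Finset.mem_range] at hq
        rw [Finset.mem_coe, Finset.mem_filter, Finset.mem_range]
        refine ⟨?_, fun i hi => ?_⟩
        · have : Nat.primeCounting q ≤ Nat.primeCounting Q :=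
            Nat.monotone_primeCounting (by omega)
          omega
        · have := hq.2 (i + 1) (by omega)
          rwa [Function.iterate_succ_apply] at this
      · intro a ha b hb hab
        rw [Finset.mem_coe, Finset.mem_filter] at ha hb
        have ha' : a.Prime := by simpa using ha.2 0 (by omega)
        have hb' : b.Prime := by simpa using hb.2 0 (by omega)
        rcases lt_trichotomy a b with h5 | h5 | h5
        · exfalso
          have h6 : Nat.primeCounting a < Nat.primeCounting b := by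
            rw [Nat.primeCounting, Nat.primeCounting, Nat.primeCounting', 
              Nat.count_succ Nat.Prime b, if_pos hb']
            have : Nat.count Nat.Prime (a + 1) ≤ Nat.count Nat.Prime b :=
              Nat.count_monotone _ (by omega)
            omega
          omega
        · exact h5
        · exfalso
          have h6 : Nat.primeCounting b < Nat.primeCounting a := by
            rw [Nat.primeCounting, Nat.primeCounting, Nat.primeCounting', 
              Nat.count_succ Nat.Prime a, if_pos ha']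
            have : Nat.count Nat.Prime (b + 1) ≤ Nat.count Nat.Prime a :=
              Nat.count_monotone _ (by omega)
            omega
          omega
    calc _ ≤ (((range (U + 1)).filter (IT k)).card : ℝ) := by
            exact_mod_cast h1
      _ ≤ C * U / (Real.log U) ^ (k + 1) := h U hQU
      _ ≤ C * (4 * ((Q : ℝ) / Real.log Q)) / (Real.log Q / 2) ^ (k + 1) := by gcongr
      _ = C * 2 ^ (k + 3) * Q / (Real.log Q) ^ (k + 1 + 1) := by
          rw [div_pow]
          field_simp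
          ring

end Pool.Agent.H378R2.PT
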