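import Pool.Agent.H378R2.PS.Defs
import Pool.Agent.H378R2.PG.F

set_option autoImplicit false
set_option linter.unusedVariables false

/-! # The choice of the shift and of the classes modulo the small primes (project PT, helper378) -/

namespace Pool.Agent.H378R2.PT

open Finset Filter Polynomial
open Pool.Agent.H378R2.PS (V1)
open Pool.Agent.H378R2.PG (rho MertLow greedy_f prod_bound)
open Pool.Agent.H378R2.QG (PZ Tc)

open scoped Classical

/-- the statement of `rough_count` -/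
def RoughStmt (A : ℕ) : Prop := ∃ C : ℝ, 0 < C ∧ ∃ y₀ : ℝ, ∀ y : ℝ, y₀ ≤ y → ∀ W : ℕ, y ≤ W →
    (W : ℝ) ≤ y * (Real.log y) ^ A →
    (((Finset.Icc 1 W).filter (fun m : ℕ => ∀ p : ℕ, p.Prime → V1 y < Real.log p → (p : ℝ) ≤ y →
      ¬ p ∣ m)).card : ℝ) ≤ C * W * Real.log (Real.log y) / Real.log y

theorem card_shift_le (R : ℕ → Prop) (W k : ℕ) (hk : k ≤ W) :
    ((range (W + 1)).filter (fun s : ℕ => R ((k : ℤ) - s).natAbs)).card ≤
      1 + 2 * ((Finset.Icc 1 W).filter R).card := by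
  have h : (range (W + 1)).filter (fun s : ℕ => R ((k : ℤ) - s).natAbs) ⊆
      {k} ∪ (((Finset.Icc 1 W).filter R).image (fun m => k - m) ∪
        ((Finset.Icc 1 W).filter R).image (fun m => k + m)) := by
    intro s hs
    rw [Finset.mem_filter, Finset.mem_range] at hs
    rw [Finset.mem_union, Finset.mem_union, Finset.mem_singleton, Finset.mem_image,
      Finset.mem_image]
    obtain ⟨h1, h2⟩ := hs
    rcases lt_trichotomy s k with h3 | h3 | h3
    · right; left
      refine ⟨k - s, ?_, by omega⟩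
      rw [Finset.mem_filter, Finset.mem_Icc]
      have e : ((k : ℤ) - s).natAbs = k - s := by omega
      rw [e] at h2
      exact ⟨⟨by omega, by omega⟩, h2⟩
    · left; exact h3
    · right; right
      refine ⟨s - k, ?_, by omega⟩
      rw [Finset.mem_filter, Finset.mem_Icc]
      have e : ((k : ℤ) - s).natAbs = s - k := by omega
      rw [e] at h2
      exact ⟨⟨by omega, by omega⟩, h2⟩
  have h1 := Finset.card_le_card h
  have h2 := Finset.card_union_le {k} (((Finset.Icc 1 W).filter R).image (fun m => k - m) ∪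
        ((Finset.Icc 1 W).filter R).image (fun m => k + m))
  have h3 := Finset.card_union_le (((Finset.Icc 1 W).filter R).image (fun m => k - m))
        (((Finset.Icc 1 W).filter R).image (fun m => k + m))
  have h4 : (((Finset.Icc 1 W).filter R).image (fun m => k - m)).card ≤
    ((Finset.Icc 1 W).filter R).card := Finset.card_image_le
  have h5 : (((Finset.Icc 1 W).filter R).image (fun m => k + m)).card ≤
    ((Finset.Icc 1 W).filter R).card := Finset.card_image_le
  rw [Finset.card_singleton] at h2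
  omega

/-- averaging over the shift -/
theorem exists_shift (R : ℕ → Prop) (W : ℕ) (T : Finset ℕ) (hT : ∀ k ∈ T, k ≤ W) :
    ∃ s ≤ W, (T.filter (fun k : ℕ => R ((k : ℤ) - s).natAbs)).card * (W + 1) ≤
      T.card * (1 + 2 * ((Finset.Icc 1 W).filter R).card) := by
  by_contra hcon
  push Not at hcon
  have h1 : ∑ s ∈ range (W + 1), (T.filter (fun k : ℕ => R ((k : ℤ) - s).natAbs)).card =
      ∑ k ∈ T, ((range (W + 1)).filter (fun s : ℕ => R ((k : ℤ) - s).natAbs)).card := by
    simp_rw [Finset.card_filter]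
    exact Finset.sum_comm
  have h2 : ∑ k ∈ T, ((range (W + 1)).filter (fun s : ℕ => R ((k : ℤ) - s).natAbs)).card ≤
      T.card * (1 + 2 * ((Finset.Icc 1 W).filter R).card) := by
    rw [← smul_eq_mul]
    apply Finset.sum_le_card_nsmul
    intro k hk
    exact card_shift_le R W k (hT k hk)
  have h3 : ∑ s ∈ range (W + 1), (T.card * (1 + 2 * ((Finset.Icc 1 W).filter R).card)) <
      ∑ s ∈ range (W + 1), (T.filter (fun k : ℕ => R ((k : ℤ) - s).natAbs)).card * (W + 1) := by
    apply Finset.sum_lt_sum_of_nonempty ⟨0, by simp⟩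
    intro s hs
    exact hcon s (by rw [Finset.mem_range] at hs; omega)
  rw [Finset.sum_const, Finset.card_range, smul_eq_mul, ← Finset.sum_mul, h1] at h3
  have h4 := Nat.mul_le_mul_right (W + 1) h2
  have h5 := h3.trans_le h4
  rw [mul_comm] at h5
  exact lt_irrefl _ h5

/-- `1` for the primes not dividing `D` -/
noncomputable def rD (D p : ℕ) : ℕ := if p.Prime ∧ ¬ p ∣ D then 1 else 0

theorem rD_le (D p : ℕ) : rD D p ≤ p := by
  unfold rD
  split_ifs with h
  · exact h.1.one_le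
  · exact Nat.zero_le _

theorem mert_rD (D : ℕ) (hD : 0 < D) : MertLow (rD D) := by
  refine ⟨0, le_rfl, D, fun y w hy _ => ?_⟩
  rw [neg_zero]
  unfold Tc
  apply Finset.sum_nonneg
  intro p hp
  unfold PZ at hp
  rw [Finset.mem_filter] at hp
  have h1 : ¬ p ∣ D := fun h => by
    have h2 := Nat.le_of_dvd hD h
    have h3 : (p : ℝ) ≤ D := by exact_mod_cast h2
    linarith [hp.2.2]
  have h4 : rD D p = 1 := by unfold rD; rw [if_pos ⟨hp.2.1, h1⟩]
  simp only [h4]
  simp

theorem rho_X {p : ℕ} (hp : p.Prime) : rho (X : ℤ[X]) p = 1 := by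
  unfold rho
  have h : (range p).filter (fun r : ℕ => (p : ℤ) ∣ (X : ℤ[X]).eval (r : ℤ)) = {0} := by
    ext r
    rw [Finset.mem_filter, Finset.mem_range, Finset.mem_singleton, Polynomial.eval_X,
      Int.natCast_dvd_natCast]
    constructor
    · rintro ⟨h1, h2⟩
      exact Nat.eq_zero_of_dvd_of_lt h2 h1
    · rintro rfl
      exact ⟨hp.pos, dvd_zero _⟩
  rw [h, Finset.card_singleton]

/-- the choice of the shift and of the classes modulo the small primes -/
theorem surv {A : ℕ} (hr : RoughStmt A) (D : ℕ) (hD : 0 < D) : ∃ K : ℝ, 0 < K ∧ ∃ y₀ : ℝ,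
    ∃ V₀ : ℕ, ∀ y : ℝ, y₀ ≤ y → 5 ≤ y → (V₀ : ℝ) ≤ V1 y → 2 ≤ V1 y →
    1 ≤ Real.log (Real.log y) → 1 ≤ Real.log (Real.log (Real.log y)) → ∀ W : ℕ, y ≤ W →
    (W : ℝ) ≤ y * (Real.log y) ^ A →
    ∀ T : Finset ℕ, (∀ k ∈ T, k ≤ W) → ∃ (s : ℕ) (b : ℕ → ℕ),
    ((T.filter (fun k : ℕ =>
      (∀ p : ℕ, p.Prime → V1 y < Real.log p → (p : ℝ) ≤ y → ¬ (p : ℤ) ∣ (k : ℤ) - s) ∧
      (∀ p : ℕ, p.Prime → Real.log p ≤ V1 y → ¬ p ∣ D → ¬ p ∣ b p + k))).card : ℝ) ≤
      T.card * (K * (Real.log (Real.log y)) ^ 2 /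
        ((Real.log y) ^ 2 * Real.log (Real.log (Real.log y)))) := by
  obtain ⟨C₁, hC₁, y₁, h₁⟩ := hr
  obtain ⟨C₂, hC₂, y₂, h₂⟩ := prod_bound (rD D) (rD_le D) (mert_rD D hD)
  refine ⟨(2 * C₁ + 1) * C₂ * 20, by positivity, y₁, ⌈|y₂|⌉₊, ?_⟩
  intro y hy hy5 hV0 hV2 hll hlll W hyW hWy T hT
  have hly : 1 ≤ Real.log y := by
    by_contra hcon
    push Not at hcon
    rcases le_or_gt (Real.log y) 0 with h | h
    · have : 0 < Real.log y := Real.log_pos (by linarith)
      linarith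
    · have := Real.log_nonpos h.le hcon.le
      linarith
  obtain ⟨R, hR⟩ : ∃ R : ℕ → Prop, R = fun m => ∀ p : ℕ, p.Prime → V1 y < Real.log p →
    (p : ℝ) ≤ y → ¬ p ∣ m := ⟨_, rfl⟩
  obtain ⟨s, hs, hs'⟩ := exists_shift R W T hT
  obtain ⟨T₁, hT₁⟩ : ∃ T₁ : Finset ℕ, T₁ = T.filter (fun k : ℕ => R ((k : ℤ) - s).natAbs) :=
    ⟨_, rfl⟩
  rw [← hT₁] at hs'
  obtain ⟨z, hz⟩ : ∃ z : ℝ, z = Real.exp (V1 y) := ⟨_, rfl⟩
  obtain ⟨S, hS⟩ : ∃ S : Finset ℕ, S = ((Finset.Icc 1 ⌊z⌋₊).filter Nat.Prime).filter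
    (fun p => ¬ p ∣ D) := ⟨_, rfl⟩
  have hSp : ∀ p ∈ S, p.Prime := by
    intro p hp
    rw [hS, Finset.mem_filter, Finset.mem_filter] at hp
    exact hp.1.2
  obtain ⟨b, hb⟩ := greedy_f (X : ℤ[X]) S hSp T₁
  refine ⟨s, b, ?_⟩
  -- the product
  have hprod : ∏ p ∈ S, (1 - (rho (X : ℤ[X]) p : ℝ) / p) ≤ C₂ / V1 y := by
    have hz2 : y₂ ≤ z := by
      have e1 : |y₂| ≤ V1 y := (Nat.le_ceil _).trans hV0
      have e2 := le_abs_self y₂
      have e3 := Real.add_one_le_exp (V1 y)
      rw [hz]; linarith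
    have e := h₂ z hz2
    have e' : Real.log z = V1 y := by rw [hz, Real.log_exp]
    rw [e'] at e
    refine le_trans (le_of_eq ?_) e
    rw [hS, Finset.prod_filter]
    apply Finset.prod_congr rfl
    intro p hp
    have hpp := (Finset.mem_filter.1 hp).2
    by_cases hpD : p ∣ D
    · have e4 : rD D p = 0 := by
        unfold rD
        rw [if_neg (fun h => h.2 hpD)]
      rw [if_neg (fun h => h hpD), e4]
      simp
    · have e4 : rD D p = 1 := by
        unfold rD
        rw [if_pos ⟨hpp, hpD⟩]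
      rw [if_pos hpD, e4, rho_X hpp]
  -- the size of `T₁`
  have hT1 : (T₁.card : ℝ) ≤ T.card * ((2 * C₁ + 1) * (Real.log (Real.log y) / Real.log y)) := by
    have h3 := h₁ y hy W hyW hWy
    have h4 : (((Finset.Icc 1 W).filter R).card : ℝ) ≤
        C₁ * W * Real.log (Real.log y) / Real.log y := by
      rw [hR]
      exact h3
    have h5 : (T₁.card : ℝ) * (W + 1) ≤
        T.card * (1 + 2 * (((Finset.Icc 1 W).filter R).card : ℝ)) := by exact_mod_cast hs'
    have h6 : (1 : ℝ) ≤ W * (Real.log (Real.log y) / Real.log y) := by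
      rw [← mul_div_assoc, le_div_iff₀ (by linarith), one_mul]
      have e1 : Real.log y ≤ y := by
        have := Real.log_le_sub_one_of_pos (show 0 < y by linarith)
        linarith
      have e2 : (0 : ℝ) ≤ W := Nat.cast_nonneg _
      nlinarith
    have h7 : 1 + 2 * (((Finset.Icc 1 W).filter R).card : ℝ) ≤
        (2 * C₁ + 1) * (Real.log (Real.log y) / Real.log y) * (W + 1) := by
      have e1 : C₁ * W * Real.log (Real.log y) / Real.log y =
        C₁ * (W * (Real.log (Real.log y) / Real.log y)) := by ring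
      rw [e1] at h4
      have e2 : 0 ≤ Real.log (Real.log y) / Real.log y := by
        apply div_nonneg <;> linarith
      have e3 : 0 ≤ C₁ * (Real.log (Real.log y) / Real.log y) := by positivity
      nlinarith
    have hW1 : (0 : ℝ) < (W : ℝ) + 1 := by positivity
    have h8 : (T₁.card : ℝ) * (W + 1) ≤
        (T.card * ((2 * C₁ + 1) * (Real.log (Real.log y) / Real.log y))) * (W + 1) := by
      calc (T₁.card : ℝ) * (W + 1) ≤ _ := h5
        _ ≤ T.card * ((2 * C₁ + 1) * (Real.log (Real.log y) / Real.log y) * (W + 1)) :=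
          mul_le_mul_of_nonneg_left h7 (Nat.cast_nonneg _)
        _ = _ := by ring
    exact le_of_mul_le_mul_right h8 hW1
  have h3 : (T.filter (fun k : ℕ =>
      (∀ p : ℕ, p.Prime → V1 y < Real.log p → (p : ℝ) ≤ y → ¬ (p : ℤ) ∣ (k : ℤ) - s) ∧
      (∀ p : ℕ, p.Prime → Real.log p ≤ V1 y → ¬ p ∣ D → ¬ p ∣ b p + k))).card ≤
      (T₁.filter (fun j => ∀ p ∈ S,
        ¬ (p : ℤ) ∣ (X : ℤ[X]).eval (((b p + j : ℕ) : ℤ)))).card := by
    apply Finset.card_le_card
    intro k hk
    rw [Finset.mem_filter] at hk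
    rw [Finset.mem_filter, hT₁, Finset.mem_filter]
    obtain ⟨hk1, hk2, hk3⟩ := hk
    refine ⟨⟨hk1, ?_⟩, fun p hp hd => ?_⟩
    · rw [hR]
      intro p hp hp1 hp2 hd
      exact hk2 p hp hp1 hp2 (Int.natCast_dvd.mpr hd)
    · rw [Polynomial.eval_X, Int.natCast_dvd_natCast] at hd
      rw [hS, Finset.mem_filter, Finset.mem_filter, Finset.mem_Icc] at hp
      have hp0 : (0 : ℝ) < p := by exact_mod_cast hp.1.2.pos
      have e1 : (p : ℝ) ≤ z := (Nat.le_floor_iff (by rw [hz]; positivity)).1 hp.1.1.2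
      have e2 : Real.log p ≤ V1 y := by
        rw [hz] at e1
        have := Real.log_le_log hp0 e1
        rwa [Real.log_exp] at this
      exact hk3 p hp.1.2 e2 hp.2 hd
  have hprod0 : 0 ≤ ∏ p ∈ S, (1 - (rho (X : ℤ[X]) p : ℝ) / p) := by
    apply Finset.prod_nonneg
    intro p hp
    have hp0 : (1 : ℝ) ≤ p := by exact_mod_cast (hSp p hp).one_le
    rw [rho_X (hSp p hp), sub_nonneg, div_le_one (by linarith)]
    push_cast
    exact hp0
  have hV : V1 y = Real.log y * Real.log (Real.log (Real.log y)) /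
    (20 * Real.log (Real.log y)) := rfl
  calc _ ≤ ((T₁.filter (fun j => ∀ p ∈ S,
        ¬ (p : ℤ) ∣ (X : ℤ[X]).eval (((b p + j : ℕ) : ℤ)))).card : ℝ) := by exact_mod_cast h3
    _ ≤ T₁.card * ∏ p ∈ S, (1 - (rho (X : ℤ[X]) p : ℝ) / p) := hb
    _ ≤ (T.card * ((2 * C₁ + 1) * (Real.log (Real.log y) / Real.log y))) * (C₂ / V1 y) := by
        apply mul_le_mul hT1 hprod hprod0
        have : 0 ≤ Real.log (Real.log y) / Real.log y := by apply div_nonneg <;> linarith
        positivity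
    _ = _ := by
        rw [hV]
        have e1 : Real.log y ≠ 0 := by linarith
        have e2 : Real.log (Real.log y) ≠ 0 := by linarith
        have e3 : Real.log (Real.log (Real.log y)) ≠ 0 := by linarith
        field_simp

end Pool.Agent.H378R2.PT
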