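import Pool.Agent.H256R2.SC.V
import Pool.Agent.H378R2.PS.Main
import Pool.Agent.H378R2.PT.Surv
import Pool.Agent.H378R2.PT.Ana

set_option autoImplicit false
set_option linter.unusedVariables false

/-! # Prime-free translates of sets of record size in short intervals (project PT, helper378) -/

namespace Pool.Agent.H378R2.PT

open Finset Filter
open Pool.Agent.H256R2.SC (covering ff)
open Pool.Agent.H256R2.SC.LG (exists_crt count_Ioc)
open Pool.Agent.H378R2.PS (V1 count_two toNat_mod)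

open scoped Classical

theorem main_of (A : ℕ) (hr : RoughStmt (A + 1)) (D : ℕ) (hD : 0 < D) :
    ∃ c : ℝ, 0 < c ∧ ∃ X₀ : ℝ, ∀ X : ℝ, X₀ ≤ X → ∀ M : ℝ, X ≤ M → ∀ r : ℕ,
    ∀ Z : Finset ℤ, (∀ z ∈ Z, |(z : ℝ)| ≤ Real.log X * (Real.log (Real.log X)) ^ A) →
    (Z.card : ℝ) ≤ c * ff X →
    ∃ n : ℕ, M < n ∧ (n : ℝ) ≤ M + X ∧ n ≡ r [MOD D] ∧ ∀ z ∈ Z, ¬ Prime ((n : ℤ) + z) := by
  obtain ⟨c₁, hc₁, X₁, hcov⟩ := covering
  obtain ⟨K, hK, y₀, V₀, hsurv⟩ := surv hr D hD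
  obtain ⟨D', hD'⟩ : ∃ D' : ℕ, D' = max D V₀ := ⟨_, rfl⟩
  obtain ⟨c, hc, X₂, hana⟩ := anaT A D' (y₀ := y₀) hc₁ hK
  refine ⟨c, hc, max X₁ X₂, fun X hX M hM r Z hZ hZc => ?_⟩
  obtain ⟨y, hy⟩ : ∃ y : ℝ, y = Real.log X / 10 := ⟨_, rfl⟩
  obtain ⟨W, hW⟩ : ∃ W : ℕ, W = ⌊Real.log X * (Real.log (Real.log X)) ^ A⌋₊ := ⟨_, rfl⟩
  obtain ⟨a1, a2, a3, a4, a5, a6, a7, a8, a9, a10, a11, a12, a13, a14, a15, a16, a17, a18⟩ :=
    hana X ((le_max_right _ _).trans hX) y hy W hW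
  have hX0 : 0 < X := by linarith
  have hy0 : 0 ≤ y := by linarith
  have hlogy : 0 < Real.log y := Real.log_pos (by linarith)
  have hDD' : (D : ℝ) ≤ D' := by rw [hD']; exact_mod_cast le_max_left _ _
  have hVD' : (V₀ : ℝ) ≤ D' := by rw [hD']; exact_mod_cast le_max_right _ _
  have hly : Real.log y ≤ y := by
    have := Real.log_le_sub_one_of_pos (show 0 < y by linarith)
    linarith
  -- the translated set
  obtain ⟨T, hT⟩ : ∃ T : Finset ℕ, T = Z.image (fun z : ℤ => (z + (W : ℤ)).toNat) := ⟨_, rfl⟩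
  have hZW : ∀ z ∈ Z, |z| ≤ (W : ℤ) := by
    intro z hz
    have h1 := hZ z hz
    have h2 : ((z.natAbs : ℕ) : ℝ) ≤ Real.log X * (Real.log (Real.log X)) ^ A := by
      rw [Nat.cast_natAbs]
      push_cast
      exact h1
    have h3 : z.natAbs ≤ W := by rw [hW]; exact Nat.le_floor h2
    rw [Int.abs_eq_natAbs]
    exact_mod_cast h3
  have hTW : ∀ k ∈ T, k ≤ 2 * W := by
    intro k hk
    rw [hT, Finset.mem_image] at hk
    obtain ⟨z, hz, rfl⟩ := hk
    have := abs_le.1 (hZW z hz)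
    omega
  have hTcard : (T.card : ℝ) ≤ c * ff X := by
    refine le_trans ?_ hZc
    rw [hT]
    exact_mod_cast Finset.card_image_le
  obtain ⟨s, b, hcard⟩ := hsurv y a2 a3 (hVD'.trans a15) a14 a16 a17 (2 * W) a4 a5 T hTW
  obtain ⟨T₂, hT₂⟩ : ∃ T₂ : Finset ℕ, T₂ = T.filter (fun k : ℕ =>
      (∀ p : ℕ, p.Prime → V1 y < Real.log p → (p : ℝ) ≤ y → ¬ (p : ℤ) ∣ (k : ℤ) - s) ∧
      (∀ p : ℕ, p.Prime → Real.log p ≤ V1 y → ¬ p ∣ D → ¬ p ∣ b p + k)) := ⟨_, rfl⟩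
  rw [← hT₂] at hcard
  have hT2card : (T₂.card : ℝ) ≤ c₁ * Real.log X := hcard.trans (a6 _ hTcard)
  have hT2W : ∀ k ∈ T₂, k ≤ 2 * W := by
    intro k hk
    rw [hT₂, Finset.mem_filter] at hk
    exact hTW k hk.1
  -- the residue classes
  obtain ⟨cl, hcl⟩ : ∃ cl : ℕ → ℕ, cl = fun p : ℕ => if Real.log p ≤ V1 y then b p else
    ((-(s : ℤ)) % (p : ℤ)).toNat := ⟨_, rfl⟩
  obtain ⟨b0, hb0, hb0'⟩ := exists_crt ⌊y⌋₊ cl
  obtain ⟨P, hP⟩ : ∃ P : ℕ, P = ∏ p ∈ (Finset.range (⌊y⌋₊ + 1)).filter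
    (fun p => p.Prime ∧ ¬ p ∣ D), p := ⟨_, rfl⟩
  have hP0 : 0 < P := by
    rw [hP]
    apply Finset.prod_pos
    intro p hp
    exact (Finset.mem_filter.1 hp).2.1.pos
  have hPprim : P ≤ primorial ⌊y⌋₊ := by
    rw [hP, primorial]
    apply Finset.prod_le_prod_of_subset_of_one_le'
    · intro p hp
      rw [Finset.mem_filter] at hp ⊢
      exact ⟨hp.1, hp.2.1⟩
    · intro p hp _
      exact (Finset.mem_filter.1 hp).2.one_le
  have hPD : Nat.Coprime P D := by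
    rw [hP]
    apply Nat.Coprime.prod_left
    intro p hp
    have := (Finset.mem_filter.1 hp).2
    exact (Nat.Prime.coprime_iff_not_dvd this.1).2 this.2
  obtain ⟨b1, hb1, hb2⟩ : ∃ b1 : ℕ, b1 ≡ b0 [MOD P] ∧ b1 ≡ r + (D - 1) * W [MOD D] :=
    ⟨_, (Nat.chineseRemainder hPD b0 (r + (D - 1) * W)).2.1,
      (Nat.chineseRemainder hPD b0 (r + (D - 1) * W)).2.2⟩
  obtain ⟨Q, hQ⟩ : ∃ Q : ℕ, Q = P * D := ⟨_, rfl⟩
  have hQ0 : 0 < Q := by rw [hQ]; exact Nat.mul_pos hP0 hD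
  have hQR : (0 : ℝ) < Q := by exact_mod_cast hQ0
  have hQ1 : (1 : ℝ) ≤ Q := by exact_mod_cast hQ0
  have hPdvd : ∀ p : ℕ, p.Prime → (p : ℝ) ≤ y → ¬ p ∣ D → p ∣ P := by
    intro p hp hpy hpD
    rw [hP]
    apply Finset.dvd_prod_of_mem
    rw [Finset.mem_filter, Finset.mem_range]
    exact ⟨by have := Nat.le_floor hpy; omega, hp, hpD⟩
  have a9' : 4 * (Q : ℝ) ≤ X ^ (1 / 2 : ℝ) := by
    refine le_trans ?_ a9
    have h1 : (P : ℝ) ≤ primorial ⌊y⌋₊ := by exact_mod_cast hPprim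
    have h2 : (Q : ℝ) = P * D := by rw [hQ]; push_cast; ring
    rw [h2]
    have h3 : (P : ℝ) * D ≤ (primorial ⌊y⌋₊ : ℝ) * D' := by
      apply mul_le_mul h1 hDD' (Nat.cast_nonneg _) (Nat.cast_nonneg _)
    linarith
  -- the set of the `x`
  obtain ⟨A', hA⟩ : ∃ A' : ℤ, A' = ⌊M - W⌋ := ⟨_, rfl⟩
  obtain ⟨B, hB⟩ : ∃ B : ℤ, B = ⌊M + X - W⌋ := ⟨_, rfl⟩
  have hAB : A' ≤ B := by rw [hA, hB]; exact Int.floor_mono (by linarith)
  have hA1 : (A' : ℝ) ≤ M - W := by rw [hA]; exact Int.floor_le _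
  have hA2 : M - W < (A' : ℝ) + 1 := by rw [hA]; exact Int.lt_floor_add_one _
  have hB1 : (B : ℝ) ≤ M + X - W := by rw [hB]; exact Int.floor_le _
  have hB2 : M + X - W < (B : ℝ) + 1 := by rw [hB]; exact Int.lt_floor_add_one _
  have hX2 : 0 < X ^ (1 / 2 : ℝ) := Real.rpow_pos_of_pos hX0 _
  have hXX : X ^ (1 / 2 : ℝ) * X ^ (1 / 2 : ℝ) = X := by
    rw [← Real.rpow_add hX0]; norm_num
  have hX4 : 4 ≤ X ^ (1 / 2 : ℝ) := by linarith
  have hN : X ^ (1 / 2 : ℝ) ≤ ((B : ℝ) - A') / Q := by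
    rw [le_div_iff₀ hQR]
    have h3 : X ^ (1 / 2 : ℝ) * (4 * (Q : ℝ)) ≤ X := by
      calc X ^ (1 / 2 : ℝ) * (4 * (Q : ℝ)) ≤ X ^ (1 / 2 : ℝ) * X ^ (1 / 2 : ℝ) :=
            mul_le_mul_of_nonneg_left a9' hX2.le
        _ = X := hXX
    have h4 : 16 ≤ X := by nlinarith
    nlinarith
  obtain ⟨x, hx, hxS⟩ := hcov X ((le_max_left _ _).trans hX) ∅ (by
      rw [Finset.card_empty, Nat.cast_zero]
      have : 0 ≤ Real.log X := Real.log_nonneg a1
      linarith) {h // h ∈ T₂} (by rw [Fintype.card_coe]; exact hT2card)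
    (fun _ k => -((k : ℕ) : ℤ))
    (by
      intro p hp hp1 _ _ k l hkl hd
      have hk := hT2W _ k.2
      have hl := hT2W _ l.2
      have h1 : ((2 * W : ℕ) : ℝ) < p := by linarith
      have h2 : 2 * W < p := by exact_mod_cast h1
      have h3 : (l : ℕ) ≠ (k : ℕ) := fun h0 => hkl (Subtype.ext h0.symm)
      have h4 : -((k : ℕ) : ℤ) - -((l : ℕ) : ℤ) ≠ 0 := by omega
      have h5 := Int.le_of_dvd (abs_pos.mpr h4) ((dvd_abs _ _).mpr hd)
      have h6 : |-((k : ℕ) : ℤ) - -((l : ℕ) : ℤ)| ≤ ((2 * W : ℕ) : ℤ) := by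
        rw [abs_le]
        constructor <;> omega
      omega)
    ((Ioc A' B).filter (fun x => (Q : ℤ) ∣ x - b1)) (((B : ℝ) - A') / Q) 1 hN zero_le_one
    (by linarith) (by
      intro q hq1 hq2 hq3 t
      have hq0 : 0 < q := Nat.pos_of_ne_zero hq1.ne_zero
      have hcop : Nat.Coprime Q q := by
        rw [Nat.coprime_iff_gcd_eq_one]
        by_contra hne
        obtain ⟨p, hp, hpd⟩ := Nat.exists_prime_and_dvd hne
        have h1 : p ∣ Q := hpd.trans (Nat.gcd_dvd_left _ _)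
        have h2 : p ∣ q := hpd.trans (Nat.gcd_dvd_right _ _)
        have h3 := (hq3 p (Nat.mem_primeFactors.mpr ⟨hp, h2, hq0.ne'⟩)).1
        rw [hQ] at h1
        rcases (Nat.Prime.dvd_mul hp).1 h1 with h1 | h1
        · rw [hP] at h1
          rw [Prime.dvd_finsetProd_iff hp.prime] at h1
          obtain ⟨p', hp', hpp'⟩ := h1
          rw [Finset.mem_filter, Finset.mem_range] at hp'
          have h4 : p = p' := (Nat.prime_dvd_prime_iff_eq hp hp'.2.1).1 hpp'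
          have h5 : (p : ℝ) ≤ y := by
            have : p ≤ ⌊y⌋₊ := by omega
            calc (p : ℝ) ≤ (⌊y⌋₊ : ℝ) := by exact_mod_cast this
              _ ≤ y := Nat.floor_le hy0
          linarith
        · have h4 := Nat.le_of_dvd hD h1
          have h5 : (p : ℝ) ≤ D := by exact_mod_cast h4
          linarith
      exact count_two A' B hAB Q q hQ0 hq0 hcop b1 t)
  rw [Finset.mem_filter, Finset.mem_Ioc] at hx
  obtain ⟨⟨hx1, hx2⟩, hx3⟩ := hx
  have hxM : M - W < (x : ℝ) := by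
    have : (A' : ℝ) + 1 ≤ x := by exact_mod_cast hx1
    linarith
  have hxX : (x : ℝ) ≤ M + X - W := by
    have : (x : ℝ) ≤ B := by exact_mod_cast hx2
    linarith
  have hW0 : (0 : ℝ) ≤ W := Nat.cast_nonneg _
  have hx0 : 0 ≤ x := by
    have : (0 : ℝ) < x := by linarith
    exact_mod_cast this.le
  obtain ⟨x', rfl⟩ := Int.eq_ofNat_of_zero_le hx0
  have hxM' : M - W < (x' : ℝ) := by exact_mod_cast hxM
  have hxX' : (x' : ℝ) ≤ M + X - W := by exact_mod_cast hxX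
  have hxP : (P : ℤ) ∣ (x' : ℤ) - b0 := by
    have h1 : (P : ℤ) ∣ (x' : ℤ) - b1 := by
      refine dvd_trans ?_ hx3
      rw [hQ]
      push_cast
      exact dvd_mul_right _ _
    have h2 : (P : ℤ) ∣ (b1 : ℤ) - b0 := Nat.modEq_iff_dvd.mp hb1.symm
    have h3 := dvd_add h1 h2
    have e : (x' : ℤ) - b1 + ((b1 : ℤ) - b0) = (x' : ℤ) - b0 := by ring
    rwa [e] at h3
  have hxD : x' ≡ r + (D - 1) * W [MOD D] := by
    have h1 : (D : ℤ) ∣ (x' : ℤ) - b1 := by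
      refine dvd_trans ?_ hx3
      rw [hQ]
      push_cast
      exact dvd_mul_left _ _
    exact ((Nat.modEq_iff_dvd.mpr h1).symm).trans hb2
  have hcong : ∀ p : ℕ, p.Prime → (p : ℝ) ≤ y → ¬ p ∣ D → (p : ℤ) ∣ (x' : ℤ) - cl p := by
    intro p hp hpy hpD
    have h1 : (p : ℤ) ∣ (x' : ℤ) - b0 := by
      refine dvd_trans ?_ hxP
      exact_mod_cast hPdvd p hp hpy hpD
    have h2 : (p : ℤ) ∣ (b0 : ℤ) - (cl p : ℤ) :=
      Nat.modEq_iff_dvd.mp (hb0' p hp (Nat.le_floor hpy)).symm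
    have h3 := dvd_add h1 h2
    have e : (x' : ℤ) - b0 + ((b0 : ℤ) - cl p) = (x' : ℤ) - cl p := by ring
    rwa [e] at h3
  refine ⟨x' + W, ?_, ?_, ?_, fun z hz hpr => ?_⟩
  · push_cast; linarith
  · push_cast; linarith
  · have h1 : x' + W ≡ r + (D - 1) * W + W [MOD D] := hxD.add_right W
    have h2 : r + (D - 1) * W + W = r + D * W := by
      obtain ⟨d, rfl⟩ : ∃ d, D = d + 1 := ⟨D - 1, by omega⟩
      rw [Nat.add_sub_cancel]
      ring
    rw [h2] at h1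
    refine h1.trans ?_
    have h3 : r + D * W ≡ r + 0 [MOD D] :=
      Nat.ModEq.add_left r ((Nat.modEq_zero_iff_dvd).2 (dvd_mul_right _ _))
    rwa [Nat.add_zero] at h3
  · have hzW := abs_le.1 (hZW z hz)
    obtain ⟨k, hk⟩ : ∃ k : ℕ, k = (z + (W : ℤ)).toNat := ⟨_, rfl⟩
    have hkz : (k : ℤ) = z + W := by rw [hk]; omega
    have hkT : k ∈ T := by
      rw [hT, Finset.mem_image]
      exact ⟨z, hz, hk.symm⟩
    have e1 : ((x' + W : ℕ) : ℤ) + z = ((x' + k : ℕ) : ℤ) := by push_cast; linarith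
    rw [e1, ← Nat.prime_iff_prime_int] at hpr
    have hbig : X / 4 < ((x' + k : ℕ) : ℝ) := by
      push_cast
      have : (0 : ℝ) ≤ k := Nat.cast_nonneg _
      linarith
    have hprime : ∀ p : ℕ, p.Prime → (p : ℝ) ≤ X / 4 → ¬ (p : ℤ) ∣ (x' : ℤ) + k := by
      intro p hp hpZ hd
      have h1 : p ∣ x' + k := by exact_mod_cast hd
      have h2 : p = x' + k := (Nat.prime_dvd_prime_iff_eq hp hpr).1 h1
      rw [h2] at hpZ
      linarith
    by_cases hk2 : k ∈ T₂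
    · obtain ⟨p, hp1, hp2, hp3, -, hp4⟩ := hxS ⟨k, hk2⟩
      refine hprime p hp1 (by linarith) ?_
      simp at hp4 ⊢
      exact hp4
    · rw [hT₂, Finset.mem_filter] at hk2
      push Not at hk2
      by_cases hmed : ∀ p : ℕ, p.Prime → V1 y < Real.log p → (p : ℝ) ≤ y →
        ¬ (p : ℤ) ∣ (k : ℤ) - s
      · obtain ⟨p, hp1, hp2, hp3, hp4⟩ := hk2 hkT hmed
        have hp0 : (0 : ℝ) < p := by exact_mod_cast hp1.pos
        have hpy : (p : ℝ) ≤ y := by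
          have h1 : Real.log p ≤ Real.log y := by linarith
          exact (Real.log_le_log_iff hp0 (by linarith)).1 h1
        have h1 := hcong p hp1 hpy hp3
        have h2 : cl p = b p := by rw [hcl]; exact if_pos hp2
        rw [h2] at h1
        have h3 : (p : ℤ) ∣ (b p : ℤ) + k := by exact_mod_cast hp4
        have h4 := dvd_add h1 h3
        have e : (x' : ℤ) - b p + ((b p : ℤ) + k) = (x' : ℤ) + k := by ring
        rw [e] at h4
        exact hprime p hp1 (by linarith) h4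
      · push Not at hmed
        obtain ⟨p, hp1, hp2, hp3, hp4⟩ := hmed
        have hp0 : (0 : ℝ) < p := by exact_mod_cast hp1.pos
        have hpD : ¬ p ∣ D := by
          intro h
          have h1 := Nat.le_of_dvd hD h
          have h2 : (p : ℝ) ≤ D := by exact_mod_cast h1
          have h3 := Real.log_le_sub_one_of_pos hp0
          linarith
        have h1 := hcong p hp1 hp3 hpD
        have h2 : cl p = ((-(s : ℤ)) % (p : ℤ)).toNat := by
          rw [hcl]; exact if_neg (not_le.mpr hp2)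
        have h3 : (p : ℤ) ∣ (cl p : ℤ) - (-(s : ℤ)) := by
          rw [h2]; exact toNat_mod _ p hp1.pos
        have h4 := dvd_add (dvd_add h1 h3) hp4
        have e : (x' : ℤ) - cl p + ((cl p : ℤ) - -(s : ℤ)) + ((k : ℤ) - s) = (x' : ℤ) + k := by
          ring
        rw [e] at h4
        exact hprime p hp1 (by linarith) h4

end Pool.Agent.H378R2.PT
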